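import Pool.Agent.Y6.M.Stm

/-!
# Job EM-STEP: a step of the cascade (helper475)
-/

set_option autoImplicit false

open Set Filter Topology

namespace Pool.Agent.Y475.EM.STEP

open Pool.Agent.Y6.M

theorem restr {α : ℕ → ℝ} {G : ℕ → ℂ} {b d : ℕ → ℝ} {N : ℕ} {s e s' e' : ℝ}
    {x y f g : ℕ → ℝ → ℂ} (h : CSol α G b d N s e x y f g) (hs : s ≤ s') (he : e' ≤ e) :
    CSol α G b d N s' e' x y f g := by
  have hsub : Icc s' e' ⊆ Icc s e := Icc_subset_Icc hs he
  exact ⟨fun n hn t ht => (h.dx n hn t (hsub ht)).mono hsub,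
    fun n hn t ht => (h.dy n hn t (hsub ht)).mono hsub,
    fun n t ht => h.pf n t (hsub ht), fun n t ht => h.pg n t (hsub ht),
    fun n t ht => h.one n t (hsub ht)⟩

theorem alpha_ge {α : ℕ → ℝ} {G : ℕ → ℂ} {b d : ℕ → ℝ} (h : Chn α G b d) (n : ℕ) :
    10 ^ 40 ≤ α n := by
  induction n with
  | zero => exact h.A0
  | succ n ih =>
    rw [h.step]
    have h1 : (1 : ℝ) ≤ α n := le_trans (by norm_num) ih
    exact ih.trans (le_self_pow₀ h1 (by omega))

theorem left_limit {z : ℝ → ℂ} {s θ U : ℝ} (hs : 0 < s) (hθ : s ≤ θ)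
    (hc : ContinuousOn z (Icc 0 θ)) (h : ∀ t ∈ Ico 0 s, ‖z t‖ < U) : ‖z s‖ ≤ U := by
  have h1 : ContinuousWithinAt z (Icc 0 θ) s := hc s ⟨hs.le, hθ⟩
  have h2 : ContinuousWithinAt (fun t => ‖z t‖) (Ico 0 s) s :=
    (h1.mono (fun t ht => ⟨ht.1, ht.2.le.trans hθ⟩)).norm
  have hne : (𝓝[Ico 0 s] s).NeBot := by
    rw [← mem_closure_iff_nhdsWithin_neBot, closure_Ico hs.ne]
    exact ⟨hs.le, le_rfl⟩
  exact le_of_tendsto h2 (by
    filter_upwards [self_mem_nhdsWithin] with t ht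
    exact (h t ht).le)

theorem t_STEP : Pool.Agent.Y6.M.S_QINV → Pool.Agent.Y6.M.S_FRZ → Pool.Agent.Y6.M.S_GRW →
    Pool.Agent.Y6.M.S_STEP := by
  intro hQ hF hG α G b d hC m s θ x y f g hs hsθ hθ hsol hx0 hy0 hU hV hm
  have hα := alpha_ge hC
  have hαpos : ∀ n, 0 < α n := fun n => lt_of_lt_of_le (by norm_num) (hα n)
  have hδ : 0 < δc α m := by
    unfold δc
    have := hαpos m
    positivity
  by_contra hcon
  rw [not_le] at hcon
  -- the amplitude at the time `s`
  have h1 : Uth α m ≤ ‖x m s‖ ∧ ∀ n, m = n + 1 → ‖y n s‖ ≤ ‖x m s‖ := by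
    rcases hm with ⟨hm0, hs0⟩ | ⟨n, hmn, hex, hbef⟩
    · subst hm0 hs0
      refine ⟨?_, fun n h => by omega⟩
      rw [hx0 0]
      have e1 : ‖((x0 α 0 : ℝ) : ℂ)‖ = 1 / 2 := by
        unfold x0
        rw [Complex.norm_real]
        norm_num
      rw [e1]
      unfold Uth
      have h2 : (2 : ℝ) ≤ √(α 0) := by
        apply Real.le_sqrt_of_sq_le
        exact le_trans (by norm_num) (hα 0)
      rw [one_div]
      exact inv_anti₀ (by norm_num) h2
    · subst hmn
      -- the pair is below the threshold up to the time `s`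
      have hpair : ∀ t ∈ Icc 0 s, ‖x (n + 1) t‖ ≤ Uth α (n + 1) ∧ ‖y n t‖ ≤ Uth α (n + 1) := by
        intro t ht
        rcases lt_or_eq_of_le ht.2 with hlt | heq
        · exact ⟨(hbef t ⟨ht.1, hlt⟩).1.le, (hbef t ⟨ht.1, hlt⟩).2.le⟩
        · rw [heq]
          rcases lt_or_eq_of_le hs with hpos | hzero
          · have hcx : ContinuousOn (x (n + 1)) (Icc 0 θ) := fun t ht =>
              ((hsol (n + 1)).dx (n + 1) le_rfl t ht).continuousWithinAt
            have hcy : ContinuousOn (y n) (Icc 0 θ) := fun t ht =>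
              ((hsol (n + 1)).dy n (by omega) t ht).continuousWithinAt
            exact ⟨left_limit hpos hsθ hcx fun t ht => (hbef t ht).1,
              left_limit hpos hsθ hcy fun t ht => (hbef t ht).2⟩
          · rw [← hzero, hx0, hy0, norm_zero]
            have hUpos : 0 ≤ Uth α (n + 1) := by
              unfold Uth
              positivity
            refine ⟨?_, hUpos⟩
            unfold x0 εc Uth
            have ha := hαpos (n + 1)
            have ha1 : (1 : ℝ) ≤ α (n + 1) := le_trans (by norm_num) (hα (n + 1))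
            rw [Complex.norm_real, Real.norm_of_nonneg (by positivity)]
            apply inv_anti₀ (by positivity)
            have h3 : √(α (n + 1)) ≤ α (n + 1) := by
              rw [Real.sqrt_le_left (by linarith)]
              nlinarith
            exact h3.trans (le_self_pow₀ ha1 (by omega))
      have hq := hQ α G b d hC n s x y f g hs (hsθ.trans hθ) (restr (hsol (n + 1)) le_rfl hsθ)
        (hx0 _) (hy0 _) hpair (fun t ht => ⟨(hU (n + 2) (by omega) t ⟨ht.1, ht.2.trans hsθ⟩).le,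
          (hV (n + 1) le_rfl t ⟨ht.1, ht.2.trans hsθ⟩).le⟩) s ⟨hs, le_rfl⟩
      have hd := hC.dpos n
      have hdb := hC.db n
      have hε : 0 < d n * εc α (n + 1) ^ 2 / 2 := by
        have : 0 < εc α (n + 1) := by
          unfold εc
          have := hαpos (n + 1)
          positivity
        positivity
      have hyx : ‖y n s‖ ≤ ‖x (n + 1) s‖ := by
        by_contra hlt
        rw [not_le] at hlt
        have hx := norm_nonneg (x (n + 1) s)
        have h2 : ‖x (n + 1) s‖ ^ 2 ≤ ‖y n s‖ ^ 2 := pow_le_pow_left₀ hx hlt.le 2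
        have h3 : d n * ‖x (n + 1) s‖ ^ 2 ≤ b n * ‖y n s‖ ^ 2 :=
          mul_le_mul hdb h2 (by positivity) (hd.le.trans hdb)
        linarith
      refine ⟨?_, fun n' hn' => ?_⟩
      · rcases hex with h | h
        · exact h
        · exact h.trans hyx
      · have : n' = n := by omega
        rw [this]
        exact hyx
  -- the interval
  obtain ⟨e, he⟩ : ∃ e, e = min θ (s + 2 * δc α m) := ⟨_, rfl⟩
  have heθ : e ≤ θ := he ▸ min_le_left _ _
  have he2 : e ≤ s + 2 * δc α m := he ▸ min_le_right _ _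
  have hse : s + δc α m < e := by
    rw [he, lt_min_iff]
    exact ⟨hcon, by linarith⟩
  have hse' : s ≤ e := by linarith
  have hnext : ∀ t ∈ Icc 0 e, ‖x (m + 1) t‖ ≤ Uth α (m + 1) ∧ ‖y m t‖ ≤ Uth α (m + 1) :=
    fun t ht => ⟨(hU (m + 1) (by omega) t ⟨ht.1, ht.2.trans heθ⟩).le,
      (hV m le_rfl t ⟨ht.1, ht.2.trans heθ⟩).le⟩
  have hnext2 : ∀ t ∈ Icc 0 e, ‖x (m + 2) t‖ ≤ Uth α (m + 2) ∧ ‖y (m + 1) t‖ ≤ Uth α (m + 2) :=
    fun t ht => ⟨(hU (m + 2) (by omega) t ⟨ht.1, ht.2.trans heθ⟩).le,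
      (hV (m + 1) (by omega) t ⟨ht.1, ht.2.trans heθ⟩).le⟩
  have hsub : ∀ t ∈ Icc s e, t ∈ Icc 0 e := fun t ht => ⟨hs.trans ht.1, ht.2⟩
  have hfrz := hF α G b d hC m s e x y f g hse' he2 (restr (hsol m) hs heθ) h1.1 h1.2
    fun t ht => hnext t (hsub t ht)
  have hq := hQ α G b d hC m e x y f g (hs.trans hse') (heθ.trans hθ)
    (restr (hsol (m + 1)) le_rfl heθ) (hx0 _) (hy0 _) hnext hnext2
  have hgrw := hG α G b d hC m s e (x m s) x y f g hse' (restr (hsol (m + 1)) hs heθ) h1.1 hfrz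
    (fun t ht => hnext t (hsub t ht)) (fun t ht => hnext2 t (hsub t ht))
    (fun t ht => hq t (hsub t ht))
  linarith

end Pool.Agent.Y475.EM.STEP
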